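import Pool.Agent.K6.H34.S3.Grp

/-!
# Diagonal closures of rational tangles

`Outer m` (starting library `Pool.Agent.H891R2.Jones.Diagram`): the part of an oriented diagram outside
a box through which `m` strands run; `draw O w` (starting library `Pool.Agent.W639.RB.Defs`): the word
`w` in the letters `(true, i) = σ_i`, `(false, i) = σ_i⁻¹` is drawn in the box, from the bottom to the
top; `Outer.close`: the rest of the box is filled with vertical strands.  `Word`, `nat`, `B3`, `σ`,
`braid` are defined in `Pool.Agent.K6.H34.S3.Defs`.

A rational tangle is a 3-braid two of whose upper ends at neighbouring places are joined by a cap above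
the box; its four ends are the three lower ends and the remaining upper end.
-/

set_option autoImplicit false

namespace Pool.Agent.K6.H14.KA

open Pool.Agent.H891R2.Jones Pool.Agent.W639.RB Pool.Agent.K6.H34.S3

/-- The outside of the box: there are four marked points `0, 1, 2, 3` and no crossings.  The lower end at
the place `0` is the tail (marked point `0`), the lower end at the place `2` is the head (marked point
`3`).  `κ = false`: the upper ends at the places `0` and `1` are joined by a cap (marked point `2`), the
upper end at the place `2` is joined to the lower end at the place `1` by an arc which passes around the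
head (marked point `1`).  `κ = true`: the upper ends at the places `1` and `2` are joined by a cap
(marked point `2`), the upper end at the place `0` is joined to the lower end at the place `1` by an arc
which passes around the tail (marked point `1`).  At the lower side of the box the strand at the place
`0` is directed upwards, the strand at the place `2` downwards, and the strand at the place `1` upwards
if `s` is true and downwards otherwise. -/
def diag (κ s : Bool) : Outer 3 where
  P := Fin 4
  arcs := []
  crossings := []
  lower := ![0, 1, 3]
  upper := if κ then ![1, 2, 2] else ![2, 2, 1]
  up := ![true, s, false]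

/-- The diagram given by the word `w` (with directions, which at the upper side of the box need not fit;
if they fit, it is the diagram of a knotoid). -/
def knotoid (κ s : Bool) (w : Word) : Diagram (draw (diag κ s) (nat w)).P :=
  (draw (diag κ s) (nat w)).close

/-- A kind of closure `κ` and a word `w`: they stand for the diagram `knotoid κ s w` without the
directions. -/
structure Dgm where
  κ : Bool
  w : Word

/-- Moves of these diagrams (without directions).  `cancel`: a Reidemeister move of type II; `braid`: a
Reidemeister move of type III; `first`, `first'`: the uppermost crossing is between the two strands which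
are joined by the cap; it is removed by a Reidemeister move of type I; `second`, `second'`: at the two
uppermost crossings one strand crosses both legs of the cap, above both or below both of them; it is
pulled over the cap by a Reidemeister move of type II, which removes the two crossings and changes
`κ`.  None of the moves moves a strand over or under an endpoint. -/
inductive Move : Dgm → Dgm → Prop
  | cancel (κ : Bool) (u v : Word) (b : Bool) (i : Fin 2) :
      Move ⟨κ, u ++ (b, i) :: (!b, i) :: v⟩ ⟨κ, u ++ v⟩
  | braid (κ : Bool) (u v : Word) (b : Bool) :
      Move ⟨κ, u ++ (b, 0) :: (b, 1) :: (b, 0) :: v⟩ ⟨κ, u ++ (b, 1) :: (b, 0) :: (b, 1) :: v⟩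
  | first (w : Word) (b : Bool) : Move ⟨false, w ++ [(b, 0)]⟩ ⟨false, w⟩
  | first' (w : Word) (b : Bool) : Move ⟨true, w ++ [(b, 1)]⟩ ⟨true, w⟩
  | second (w : Word) (b : Bool) : Move ⟨false, w ++ [(b, 0), (b, 1)]⟩ ⟨true, w⟩
  | second' (w : Word) (b : Bool) : Move ⟨true, w ++ [(b, 1), (b, 0)]⟩ ⟨false, w⟩

/-- The diagram can be changed by moves and inverse moves into one of the two diagrams of this family
without crossings (both are diagrams of the trivial knotoid). -/
def Untied (X : Dgm) : Prop := ∃ κ : Bool, Relation.EqvGen Move X ⟨κ, []⟩

/-- The fraction `p / q` of the rational tangle, as a pair of coprime integers (up to a common sign): the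
second column (for `κ = false`) or the first column (for `κ = true`) of the image `Z (braid w)` of the
braid in `SL₂(ℤ)` under the homomorphism `Z` with `Z (σ 0) = !![1, 0; 1, 1]`,
`Z (σ 1) = !![1, -1; 0, 1]`. -/
def frac (X : Dgm) : ℤ × ℤ :=
  if X.κ then ((Z (braid X.w)).val 0 0, (Z (braid X.w)).val 1 0)
  else ((Z (braid X.w)).val 0 1, (Z (braid X.w)).val 1 1)

end Pool.Agent.K6.H14.KA
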