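import Pool.Agent.K6.H34.S3.Alg
import Pool.Agent.K6.H14.KB.Main
import Pool.Agent.K6.H14.KA.Defs

/-!
# The functional of the diagonal closures
-/

set_option autoImplicit false

namespace Pool.Agent.K6.H14.KA

open LaurentPolynomial Complex Pool.Agent.K6.H34.S3 Pool.Agent.K6.H14.KB

section rep

variable {S : Type*} [CommRing S]

/-- the sum of the entries of a column -/
def cs (κ : Bool) (M : Matrix (Fin 2) (Fin 2) S) : S :=
  if κ then M 0 0 + M 1 0 else M 0 1 + M 1 1

/-- the value of the bracket -/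
def LamA (κ : Bool) (a : Sˣ) (g : B3) : S := cs κ (R a g).val

variable {S' : Type*} [CommRing S'] (φ : S →+* S')

theorem LamA_map (κ : Bool) (a : Sˣ) (g : B3) :
    φ (LamA κ a g) = LamA κ (Units.map φ.toMonoidHom a) g := by
  rw [LamA, LamA, R_map]
  cases κ <;> simp [cs]

theorem g0i (a : Sˣ) : ((g0 a)⁻¹ : (Matrix (Fin 2) (Fin 2) S)ˣ).val =
      !![((a⁻¹ : Sˣ) : S), 0; (a : S), -(a : S) ^ 3] := rfl
theorem g1i (a : Sˣ) : ((g1 a)⁻¹ : (Matrix (Fin 2) (Fin 2) S)ˣ).val =
      !![-(a : S) ^ 3, (a : S); 0, ((a⁻¹ : Sˣ) : S)] := rfl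

/-- the letter `σ_i^{±1}` -/
def lw (b : Bool) (i : Fin 2) : B3 := if b then σ i else (σ i)⁻¹

theorem LamA_first (a : Sˣ) (g : B3) (b : Bool) :
    LamA false a (g * lw b 0) = -(if b then ((a⁻¹ : Sˣ) : S) ^ 3 else (a : S) ^ 3) * LamA false a g := by
  unfold LamA lw
  cases b
  · simp only [Bool.false_eq_true, if_false, map_mul, map_inv, Units.val_mul, R_0, g0i, cs]
    simp [Matrix.mul_apply, Fin.sum_univ_two]
    ring
  · simp only [if_true, map_mul, Units.val_mul, R_0, g0, cs]
    simp [Matrix.mul_apply, Fin.sum_univ_two]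
    ring

theorem LamA_first' (a : Sˣ) (g : B3) (b : Bool) :
    LamA true a (g * lw b 1) = -(if b then ((a⁻¹ : Sˣ) : S) ^ 3 else (a : S) ^ 3) * LamA true a g := by
  unfold LamA lw
  cases b
  · simp only [Bool.false_eq_true, if_false, map_mul, map_inv, Units.val_mul, R_1, g1i, cs]
    simp [Matrix.mul_apply, Fin.sum_univ_two]
    ring
  · simp only [if_true, map_mul, Units.val_mul, R_1, g1, cs]
    simp [Matrix.mul_apply, Fin.sum_univ_two]
    ring

theorem LamA_second (a : Sˣ) (g : B3) (b : Bool) :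
    LamA false a (g * (lw b 0 * lw b 1)) = LamA true a g := by
  have h := uv a
  unfold LamA lw
  cases b
  · simp only [Bool.false_eq_true, if_false, map_mul, map_inv, Units.val_mul, R_0, R_1, g0i, g1i, cs,
      if_true]
    generalize (R a g).val = M
    generalize ((a⁻¹ : Sˣ) : S) = b at *
    generalize (a : S) = c at *
    simp [Matrix.mul_apply, Fin.sum_univ_two]
    linear_combination (M 0 0 + M 1 0 - c ^ 2 * (M 0 1 + M 1 1)) * h
  · simp only [if_true, map_mul, Units.val_mul, R_0, R_1, g0, g1, cs, Bool.false_eq_true, if_false]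
    generalize (R a g).val = M
    generalize ((a⁻¹ : Sˣ) : S) = b at *
    generalize (a : S) = c at *
    simp [Matrix.mul_apply, Fin.sum_univ_two]
    linear_combination (M 0 0 + M 1 0 - b ^ 2 * (M 0 1 + M 1 1)) * h

theorem LamA_second' (a : Sˣ) (g : B3) (b : Bool) :
    LamA true a (g * (lw b 1 * lw b 0)) = LamA false a g := by
  have h := uv a
  unfold LamA lw
  cases b
  · simp only [Bool.false_eq_true, if_false, map_mul, map_inv, Units.val_mul, R_0, R_1, g0i, g1i, cs,
      if_true]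
    generalize (R a g).val = M
    generalize ((a⁻¹ : Sˣ) : S) = b at *
    generalize (a : S) = c at *
    simp [Matrix.mul_apply, Fin.sum_univ_two]
    linear_combination (M 0 1 + M 1 1 - c ^ 2 * (M 0 0 + M 1 0)) * h
  · simp only [if_true, map_mul, Units.val_mul, R_0, R_1, g0, g1, cs, Bool.false_eq_true, if_false]
    generalize (R a g).val = M
    generalize ((a⁻¹ : Sˣ) : S) = b at *
    generalize (a : S) = c at *
    simp [Matrix.mul_apply, Fin.sum_univ_two]
    linear_combination (M 0 1 + M 1 1 - b ^ 2 * (M 0 0 + M 1 0)) * h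

end rep

/-- the fraction -/
def fr (κ : Bool) (g : B3) : ℤ × ℤ :=
  if κ then ((Z g).val 0 0, (Z g).val 1 0) else ((Z g).val 0 1, (Z g).val 1 1)

theorem frac_eq (X : Dgm) : frac X = fr X.κ (braid X.w) := rfl

theorem LamA_eight (κ : Bool) (z : ℂˣ) (hz : (z : ℂ) ^ 2 = I) (g : B3) :
    LamA κ z g = ((chi z g : ℂˣ) : ℂ) * (if κ then ((fr κ g).1 - I * (fr κ g).2 : ℂ) else
      ((fr κ g).2 + I * (fr κ g).1 : ℂ)) := by
  rw [LamA, R_eight z hz, cs]
  cases κ
  · simp [fr]
    ring
  · simp [fr]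
    ring

theorem evU_LamA (κ : Bool) {S : Type*} [CommRing S] (z : Sˣ) (g : B3) :
    evU z (LamA κ uT g) = LamA κ z g := by
  rw [LamA_map, map_uT]

end Pool.Agent.K6.H14.KA
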