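import Pool.Agent.K6.H14.KA.Fin

/-!
# The fraction determines the diagonal closure; the value at a primitive eighth root of unity
-/

set_option autoImplicit false

namespace Pool.Agent.K6.H14.KA

open Finset LaurentPolynomial Pool.Agent.H891R2.Jones Pool.Agent.W639.RB Pool.Agent.K6.H34.S3
  Pool.Agent.H832R3.TW Pool.Agent.H297.FT Pool.Agent.K6.H14.KB Pool.Agent.K6.H14.KW

/-! ### The relation up to sign -/

theorem Pm.refl (x : ℤ × ℤ) : Pm x x := Or.inl rfl

theorem Pm.symm {x y : ℤ × ℤ} (h : Pm x y) : Pm y x := by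
  rcases h with rfl | rfl
  · exact Or.inl rfl
  · exact Or.inr (by simp)

theorem Pm.trans {x y z : ℤ × ℤ} (h : Pm x y) (h' : Pm y z) : Pm x z := by
  rcases h with rfl | rfl
  · exact h'
  · rcases h' with rfl | rfl
    · exact Or.inr rfl
    · exact Or.inl (by simp)

theorem Pm.ite (b : Bool) (x : ℤ × ℤ) : Pm (if b then (-x.1, -x.2) else x) x := by
  cases b
  · exact Or.inl rfl
  · exact Or.inr rfl

theorem Pm.ite' (b : Bool) (x : ℤ × ℤ) : Pm (if b then x else (-x.1, -x.2)) x := by
  cases b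
  · exact Or.inr rfl
  · exact Or.inl rfl

theorem move_frac {X Y : Dgm} (h : Move X Y) : Pm (frac X) (frac Y) := by
  rw [frac_eq, frac_eq]
  cases h with
  | cancel κ u v b i =>
    dsimp only
    rw [show H34.S3.braid (u ++ (b, i) :: (!b, i) :: v) = H34.S3.braid (u ++ v) by
      rw [braid_append, braid_cancel, ← braid_append]]
    exact Pm.refl _
  | braid κ u v b =>
    dsimp only
    rw [show H34.S3.braid (u ++ (b, 0) :: (b, 1) :: (b, 0) :: v) =
        H34.S3.braid (u ++ (b, 1) :: (b, 0) :: (b, 1) :: v) by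
      rw [braid_append, braid_braid, ← braid_append]]
    exact Pm.refl _
  | first w b =>
    dsimp only
    rw [braid_snoc, fr_first]
    exact Pm.refl _
  | first' w b =>
    dsimp only
    rw [braid_snoc, fr_first']
    exact Pm.refl _
  | second w b =>
    dsimp only
    rw [braid_snoc2, fr_second]
    exact Pm.ite b _
  | second' w b =>
    dsimp only
    rw [braid_snoc2, fr_second']
    exact Pm.ite' b _

theorem eqv_frac {X Y : Dgm} (h : Relation.EqvGen Move X Y) : Pm (frac X) (frac Y) := by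
  induction h with
  | rel a b h => exact move_frac h
  | refl a => exact Pm.refl _
  | symm a b _ ih => exact ih.symm
  | trans a b c _ _ ih ih' => exact ih.trans ih'

/-! ### Connecting diagrams -/

theorem move_of_loc (κ : Bool) {w w' : Word} (h : Loc w w') : Move ⟨κ, w⟩ ⟨κ, w'⟩ := by
  cases h with
  | cancel u v b i => exact Move.cancel κ u v b i
  | braid u v b => exact Move.braid κ u v b

theorem eqv_of_braid (κ : Bool) {w w' : Word} (h : braid w = braid w') :
    Relation.EqvGen Move ⟨κ, w⟩ ⟨κ, w'⟩ := by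
  have h1 := loc_of_braid h
  clear h
  induction h1 with
  | rel a b h => exact .rel _ _ (move_of_loc κ h)
  | refl a => exact .refl _
  | symm a b _ ih => exact .symm _ _ ih
  | trans a b c _ _ ih ih' => exact .trans _ _ _ ih ih'

theorem braid_surj (g : B3) : ∃ w : Word, braid w = g := by
  induction g using B3_induction with
  | one => exact ⟨[], braid_nil⟩
  | mul0 y hy =>
    obtain ⟨w, rfl⟩ := hy
    exact ⟨(true, 0) :: w, by rw [braid_cons]; simp⟩
  | mul0' y hy =>
    obtain ⟨w, rfl⟩ := hy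
    exact ⟨(false, 0) :: w, by rw [braid_cons]; simp⟩
  | mul1 y hy =>
    obtain ⟨w, rfl⟩ := hy
    exact ⟨(true, 1) :: w, by rw [braid_cons]; simp⟩
  | mul1' y hy =>
    obtain ⟨w, rfl⟩ := hy
    exact ⟨(false, 1) :: w, by rw [braid_cons]; simp⟩

/-- multiplying the braid by `g` does not change the diagram up to moves -/
def PP (g : B3) : Prop := ∀ w w' : Word, braid w' = braid w * g →
  Relation.EqvGen Move ⟨false, w'⟩ ⟨false, w⟩

/-- the subgroup of these braids -/
def HH : Subgroup B3 where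
  carrier := {g | PP g}
  one_mem' := by
    intro w w' h
    rw [mul_one] at h
    exact eqv_of_braid false h
  mul_mem' := by
    intro g g' hg hg' w w' h
    obtain ⟨u, hu⟩ := braid_surj (braid w * g)
    exact .trans _ _ _ (hg' u w' (by rw [h, hu, mul_assoc])) (hg w u hu)
  inv_mem' := by
    intro g hg w w' h
    exact .symm _ _ (hg w' w (by rw [h, inv_mul_cancel_right]))

theorem s0_mem : σ 0 ∈ HH := by
  intro w w' h
  refine .trans _ _ _ (eqv_of_braid false (w' := w ++ [(true, 0)]) ?_) (.rel _ _ (Move.first w true))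
  rw [h, braid_snoc]
  rfl

theorem C3_mem : C3 ∈ HH := by
  intro w w' h
  have h1 : Relation.EqvGen Move ⟨false, w'⟩
      ⟨false, (w ++ [(true, 1), (true, 0), (true, 1)] ++ [(true, 0), (true, 1)]) ++ [(true, 0)]⟩ := by
    apply eqv_of_braid
    rw [h, C3, X3]
    simp only [braid_append, braid_cons, braid_nil, mul_one, if_true]
    have := br
    calc braid w * (σ 1 * σ 0 * σ 1 * (σ 1 * σ 0 * σ 1)) =
        braid w * (σ 1 * σ 0 * σ 1 * (σ 0 * σ 1 * σ 0)) := by rw [br]
      _ = _ := by group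
  refine .trans _ _ _ h1 ?_
  refine .trans _ _ _ (.rel _ _ (Move.first _ true)) ?_
  refine .trans _ _ _ (.rel _ _ (Move.second _ true)) ?_
  have h2 : (w ++ [(true, 1), (true, 0), (true, 1)] : Word) =
      (w ++ [(true, 1), (true, 0)]) ++ [(true, 1)] := by simp
  rw [h2]
  refine .trans _ _ _ (.rel _ _ (Move.first' _ true)) ?_
  exact .rel _ _ (Move.second' _ true)

theorem fam_mem (m k : ℤ) : C3 ^ m * σ 0 ^ k ∈ HH :=
  HH.mul_mem (HH.zpow_mem C3_mem m) (HH.zpow_mem s0_mem k)

/-- if the second column of the image is `(0, ± 1)` then the braid is a power of `σ_0` up to full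
twists -/
theorem of_column {g : B3} {δ : ℤ} (hδ : δ = 1 ∨ δ = -1) (h0 : (Z g).val 0 1 = 0)
    (h1 : (Z g).val 1 1 = δ) : ∃ m k : ℤ, g = C3 ^ m * σ 0 ^ k := by
  have hd := Z_det g
  rw [Matrix.det_fin_two, h0, h1, zero_mul, sub_zero] at hd
  have h2 : (Z g).val 0 0 = δ := by rcases hδ with rfl | rfl <;> omega
  set k : ℤ := δ * (Z g).val 1 0 with hk
  have hδδ : δ * δ = 1 := by rcases hδ with rfl | rfl <;> norm_num
  have key : Z g = Z (σ 0 ^ k) ∨ Z g = - Z (σ 0 ^ k) := by
    rcases hδ with rfl | rfl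
    · left
      apply Units.ext
      rw [Z_0pow]
      ext i j
      fin_cases i <;> fin_cases j
      · simpa using h2
      · simpa using h0
      · simp [hk]
      · simpa using h1
    · right
      apply Units.ext
      rw [Units.val_neg, Z_0pow]
      ext i j
      fin_cases i <;> fin_cases j
      · simpa using h2
      · simpa using h0
      · simp [hk]
      · simpa using h1
  obtain ⟨m, hm⟩ : ∃ m : ℤ, g * (σ 0 ^ k)⁻¹ = C3 ^ m := by
    apply kernel
    rw [map_mul, map_inv]
    rcases key with h | h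
    · left; rw [h, mul_inv_cancel]
    · right; rw [h, neg_mul, mul_inv_cancel]
  exact ⟨m, k, by rw [← hm]; group⟩

theorem conn_false {w w' : Word} (h : Pm (fr false (braid w')) (fr false (braid w))) :
    Relation.EqvGen Move ⟨false, w'⟩ ⟨false, w⟩ := by
  obtain ⟨δ, hδ, h1⟩ : ∃ δ : ℤ, (δ = 1 ∨ δ = -1) ∧
      ∀ j, (Z (braid w')).val j 1 = δ * (Z (braid w)).val j 1 := by
    rcases h with h | h
    · refine ⟨1, Or.inl rfl, fun j => ?_⟩
      simp only [fr, Bool.false_eq_true, if_false, Prod.mk.injEq] at h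
      fin_cases j
      · simpa using h.1
      · simpa using h.2
    · refine ⟨-1, Or.inr rfl, fun j => ?_⟩
      simp only [fr, Bool.false_eq_true, if_false, Prod.mk.injEq] at h
      fin_cases j
      · simpa using h.1
      · simpa using h.2
  have h2 : ∀ i, (Z ((braid w)⁻¹ * braid w')).val i 1 = δ * (1 : Matrix (Fin 2) (Fin 2) ℤ) i 1 := by
    intro i
    rw [map_mul, map_inv, Units.val_mul, Matrix.mul_apply]
    have h3 : ((Z (braid w))⁻¹ : (Matrix (Fin 2) (Fin 2) ℤ)ˣ).val * (Z (braid w)).val = 1 := by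
      rw [← Units.val_mul, inv_mul_cancel]; rfl
    rw [← h3, Matrix.mul_apply, Finset.mul_sum]
    refine Finset.sum_congr rfl fun j _ => ?_
    rw [h1 j]
    ring
  obtain ⟨m, k, hg⟩ := of_column (g := (braid w)⁻¹ * braid w') hδ (by rw [h2]; simp)
    (by rw [h2]; simp)
  apply fam_mem m k
  rw [← hg, mul_inv_cancel_left]

theorem to_false (X : Dgm) : ∃ w : Word, Relation.EqvGen Move X ⟨false, w⟩ := by
  obtain ⟨κ, w⟩ := X
  cases κ
  · exact ⟨w, .refl _⟩
  · exact ⟨_, .symm _ _ (.rel _ _ (Move.second w true))⟩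

/-- **Classification**: the diagrams can be changed into each other by moves if and only if the
fractions agree up to sign. -/
theorem eqv_iff (X Y : Dgm) : Relation.EqvGen Move X Y ↔ Pm (frac X) (frac Y) := by
  refine ⟨eqv_frac, fun h => ?_⟩
  obtain ⟨w, hw⟩ := to_false X
  obtain ⟨w', hw'⟩ := to_false Y
  refine .trans _ _ _ hw (.trans _ _ _ ?_ (.symm _ _ hw'))
  apply conn_false
  exact ((eqv_frac hw).symm.trans h).trans (eqv_frac hw')

theorem untied_iff (X : Dgm) : Untied X ↔ (frac X).1 * (frac X).2 = 0 := by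
  have t0 : frac ⟨false, []⟩ = (0, 1) := by simp [frac_eq, fr, braid_nil]
  have t1 : frac ⟨true, []⟩ = (1, 0) := by simp [frac_eq, fr, braid_nil]
  constructor
  · rintro ⟨κ, h⟩
    have h1 := eqv_frac h
    cases κ
    · rw [t0] at h1
      rcases h1 with h1 | h1 <;> rw [h1] <;> simp
    · rw [t1] at h1
      rcases h1 with h1 | h1 <;> rw [h1] <;> simp
  · intro h
    have hd := Z_det (braid X.w)
    rw [Matrix.det_fin_two] at hd
    have hu : ∃ a b : ℤ, (frac X).1 * a + (frac X).2 * b = 1 := by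
      rw [frac_eq, fr]
      split_ifs
      · exact ⟨(Z (braid X.w)).val 1 1, -(Z (braid X.w)).val 0 1, by dsimp only; linarith⟩
      · exact ⟨-(Z (braid X.w)).val 1 0, (Z (braid X.w)).val 0 0, by dsimp only; linarith⟩
    obtain ⟨a, b, hab⟩ := hu
    rcases mul_eq_zero.1 h with h1 | h1
    · refine ⟨false, (eqv_iff _ _).2 ?_⟩
      rw [h1, zero_mul, zero_add] at hab
      rw [t0]
      rcases Int.eq_one_or_neg_one_of_mul_eq_one hab with h2 | h2
      · exact Or.inl (Prod.ext h1 h2)
      · exact Or.inr (Prod.ext (by rw [h1]; rfl) h2)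
    · refine ⟨true, (eqv_iff _ _).2 ?_⟩
      rw [h1, zero_mul, add_zero] at hab
      rw [t1]
      rcases Int.eq_one_or_neg_one_of_mul_eq_one hab with h2 | h2
      · exact Or.inl (Prod.ext h2 h1)
      · exact Or.inr (Prod.ext h2 (by rw [h1]; rfl))

/-! ### The value at a primitive eighth root of unity -/

theorem normSq_unit (z : ℂˣ) (hz : (z : ℂ) ^ 2 = Complex.I) (n : ℤ) :
    Complex.normSq ((z ^ n : ℂˣ) : ℂ) = 1 := by
  have h1 : Complex.normSq (z : ℂ) = 1 := by
    have h2 := congrArg Complex.normSq hz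
    rw [map_pow, Complex.normSq_I] at h2
    have h3 := Complex.normSq_nonneg (z : ℂ)
    nlinarith
  rw [Units.val_zpow_eq_zpow_val, map_zpow₀, h1, one_zpow]

theorem normSq_f (κ s : Bool) (w : Word) (z : ℂˣ) (hz : (z : ℂ) ^ 2 = Complex.I) :
    Complex.normSq (evU z (knotoid κ s w).fPoly) =
      ((frac ⟨κ, w⟩).1 ^ 2 + (frac ⟨κ, w⟩).2 ^ 2 : ℝ) := by
  rw [fPoly_eq, map_mul (evU z), map_mul (evU z), evU_T, evU_LamA, LamA_eight κ z hz, chi_eq,
    map_mul Complex.normSq, map_mul Complex.normSq, map_mul Complex.normSq, normSq_unit z hz,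
    normSq_unit z hz]
  have h1 : Complex.normSq (evU z (sgn (wr ![true, s, false] w))) = 1 := by
    rw [sgn]
    split_ifs
    · rw [map_one, map_one]
    · rw [map_neg, map_one, Complex.normSq_neg, map_one]
  rw [h1, one_mul, one_mul, one_mul, frac_eq]
  cases κ
  · simp only [Bool.false_eq_true, if_false, Complex.normSq_apply]
    simp
    ring
  · simp only [if_true, Complex.normSq_apply]
    simp
    ring

theorem fPoly_one_iff (κ s : Bool) (w : Word) (hk : IsKnotoid (knotoid κ s w)) :
    (knotoid κ s w).fPoly = 1 ↔ Untied ⟨κ, w⟩ := by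
  constructor
  · intro h
    rw [untied_iff]
    obtain ⟨z, hz⟩ := exists_eight
    have h1 := normSq_f κ s w z hz
    rw [h, map_one, map_one] at h1
    have h2 : ((frac ⟨κ, w⟩).1 ^ 2 + (frac ⟨κ, w⟩).2 ^ 2 : ℤ) = 1 := by
      exact_mod_cast h1.symm
    generalize (frac ⟨κ, w⟩).1 = p at h2 ⊢
    generalize (frac ⟨κ, w⟩).2 = q at h2 ⊢
    by_contra hcon
    have hp : p ≠ 0 := fun h => hcon (by rw [h, zero_mul])
    have hq : q ≠ 0 := fun h => hcon (by rw [h, mul_zero])
    have hp' : 0 < p ^ 2 := by positivity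
    have hq' : 0 < q ^ 2 := by positivity
    omega
  · rintro ⟨κ', h⟩
    have h1 := (eqv_inv h s).2 hk
    show ff s ⟨κ, w⟩ = 1
    rw [h1]
    exact f_trivial κ' s

/-! ### Directions -/

theorem act_perm (w : Word) : ∃ π : Equiv.Perm (Fin 3), ∀ u : Fin 3 → Bool, act u w = u ∘ π := by
  induction w with
  | nil => exact ⟨1, fun u => rfl⟩
  | cons x w ih =>
    obtain ⟨π, h⟩ := ih
    refine ⟨π.trans (Equiv.swap x.2.castSucc x.2.succ), fun u => ?_⟩
    show act (u ∘ Equiv.swap x.2.castSucc x.2.succ) w = _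
    rw [h]
    rfl

theorem exists_dir (κ : Bool) (w : Word) : ∃ s : Bool, IsKnotoid (knotoid κ s w) := by
  obtain ⟨π, h⟩ := act_perm w
  simp only [isKnotoid_iff', h]
  have key : ∀ (κ : Bool) (a b c : Fin 3), a ≠ b → b ≠ c → a ≠ c → ∃ s : Bool,
      if κ then ((![true, s, false] : Fin 3 → Bool) b ≠ (![true, s, false] : Fin 3 → Bool) c ∧
        (![true, s, false] : Fin 3 → Bool) a = s)
      else ((![true, s, false] : Fin 3 → Bool) a ≠ (![true, s, false] : Fin 3 → Bool) b ∧
        (![true, s, false] : Fin 3 → Bool) c = s) := by decide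
  exact key κ (π 0) (π 1) (π 2) (fun h => by simpa using π.injective h)
    (fun h => by simpa using π.injective h) (fun h => by simpa using π.injective h)

end Pool.Agent.K6.H14.KA
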