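import Pool.Agent.K6.H14.KA.Link

/-!
# The theorem for the diagonal closures of rational tangles
-/

set_option autoImplicit false

namespace Pool.Agent.K6.H14.KA

open Finset LaurentPolynomial Pool.Agent.H891R2.Jones Pool.Agent.W639.RB Pool.Agent.K6.H34.S3
  Pool.Agent.H832R3.TW Pool.Agent.H297.FT Pool.Agent.K6.H14.KB Pool.Agent.K6.H14.KW

/-! ### Invariance of the normalised bracket -/

theorem braid_snoc (w : Word) (b : Bool) (i : Fin 2) : braid (w ++ [(b, i)]) = braid w * lw b i := by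
  rw [braid_append, braid_cons, braid_nil, mul_one]
  rfl

theorem braid_snoc2 (w : Word) (b c : Bool) (i j : Fin 2) :
    braid (w ++ [(b, i), (c, j)]) = braid w * (lw b i * lw c j) := by
  rw [braid_append, braid_cons, braid_cons, braid_nil, mul_one]
  rfl

theorem dir_first (v : Fin 3 → Bool) (s b : Bool) :
    (Fits false s (act v [(b, 0)]) ↔ Fits false s v) ∧
    (Fits false s v → wr v [(b, 0)] = if b then -1 else 1) := by
  revert v s b
  decide

theorem dir_first' (v : Fin 3 → Bool) (s b : Bool) :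
    (Fits true s (act v [(b, 1)]) ↔ Fits true s v) ∧
    (Fits true s v → wr v [(b, 1)] = if b then -1 else 1) := by
  revert v s b
  decide

theorem dir_second (v : Fin 3 → Bool) (s b : Bool) :
    (Fits false s (act v [(b, 0), (b, 1)]) ↔ Fits true s v) ∧
    (Fits true s v → wr v [(b, 0), (b, 1)] = 0) := by
  revert v s b
  decide

theorem dir_second' (v : Fin 3 → Bool) (s b : Bool) :
    (Fits true s (act v [(b, 1), (b, 0)]) ↔ Fits false s v) ∧
    (Fits false s v → wr v [(b, 1), (b, 0)] = 0) := by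
  revert v s b
  decide

theorem kink (W : ℤ) (b : Bool) (P : ℤ[T;T⁻¹]) :
    sgn (W + if b then -1 else 1) * T (-3 * (W + if b then -1 else 1)) *
      (-(if b then ((uT⁻¹ : ℤ[T;T⁻¹]ˣ) : ℤ[T;T⁻¹]) ^ 3 else (uT : ℤ[T;T⁻¹]) ^ 3) * P) =
    sgn W * T (-3 * W) * P := by
  have hs : sgn (W + if b then -1 else 1) = - sgn W := by
    have : Odd (if b then (-1 : ℤ) else 1) := by cases b <;> decide
    unfold sgn
    by_cases h : Even W
    · rw [if_pos h, if_neg (by rw [Int.not_even_iff_odd]; exact h.add_odd this)]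
    · rw [if_neg h, if_pos ((Int.not_even_iff_odd.1 h).add_odd this), neg_neg]
  have hT : (T (-3 * (W + if b then -1 else 1)) : ℤ[T;T⁻¹]) *
      (if b then ((uT⁻¹ : ℤ[T;T⁻¹]ˣ) : ℤ[T;T⁻¹]) ^ 3 else (uT : ℤ[T;T⁻¹]) ^ 3) = T (-3 * W) := by
    cases b
    · show (T (-3 * (W + 1)) : ℤ[T;T⁻¹]) * (T 1) ^ 3 = _
      rw [T_pow, ← T_add]
      congr 1
      push_cast
      ring
    · show (T (-3 * (W + -1)) : ℤ[T;T⁻¹]) * (T (-1)) ^ 3 = _
      rw [T_pow, ← T_add]
      congr 1
      push_cast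
      ring
  rw [hs, ← hT]
  ring

/-- the directions fit to the diagram -/
abbrev Ok (s : Bool) (X : Dgm) : Prop := IsKnotoid (knotoid X.κ s X.w)

/-- the normalised bracket of a directed diagram -/
noncomputable abbrev ff (s : Bool) (X : Dgm) : ℤ[T;T⁻¹] := (knotoid X.κ s X.w).fPoly

theorem move_inv {X Y : Dgm} (h : Move X Y) (s : Bool) :
    (Ok s X ↔ Ok s Y) ∧ (Ok s Y → ff s X = ff s Y) := by
  unfold Ok ff
  rw [isKnotoid_iff', isKnotoid_iff', fPoly_eq, fPoly_eq]
  cases h with
  | cancel κ u v b i =>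
    dsimp only
    have hb : braid (u ++ (b, i) :: (!b, i) :: v) = braid (u ++ v) := by
      rw [braid_append, braid_cancel, ← braid_append]
    obtain ⟨h1, h2⟩ := braid_dir hb ![true, s, false]
    rw [h1, h2, hb]
    exact ⟨Iff.rfl, fun _ => rfl⟩
  | braid κ u v b =>
    dsimp only
    have hb : H34.S3.braid (u ++ (b, 0) :: (b, 1) :: (b, 0) :: v) =
        H34.S3.braid (u ++ (b, 1) :: (b, 0) :: (b, 1) :: v) := by
      rw [braid_append, braid_braid, ← braid_append]
    obtain ⟨h1, h2⟩ := braid_dir hb ![true, s, false]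
    rw [h1, h2, hb]
    exact ⟨Iff.rfl, fun _ => rfl⟩
  | first w b =>
    dsimp only
    obtain ⟨h1, h2⟩ := dir_first (act ![true, s, false] w) s b
    rw [act_append, wr_append, h1]
    refine ⟨Iff.rfl, fun h => ?_⟩
    rw [h2 h, braid_snoc, LamA_first, kink]
  | first' w b =>
    dsimp only
    obtain ⟨h1, h2⟩ := dir_first' (act ![true, s, false] w) s b
    rw [act_append, wr_append, h1]
    refine ⟨Iff.rfl, fun h => ?_⟩
    rw [h2 h, braid_snoc, LamA_first', kink]
  | second w b =>
    dsimp only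
    obtain ⟨h1, h2⟩ := dir_second (act ![true, s, false] w) s b
    rw [act_append, wr_append, h1]
    refine ⟨Iff.rfl, fun h => ?_⟩
    rw [h2 h, braid_snoc2, LamA_second, add_zero]
  | second' w b =>
    dsimp only
    obtain ⟨h1, h2⟩ := dir_second' (act ![true, s, false] w) s b
    rw [act_append, wr_append, h1]
    refine ⟨Iff.rfl, fun h => ?_⟩
    rw [h2 h, braid_snoc2, LamA_second', add_zero]

theorem eqv_inv {X Y : Dgm} (h : Relation.EqvGen Move X Y) (s : Bool) :
    (Ok s X ↔ Ok s Y) ∧ (Ok s X → ff s X = ff s Y) := by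
  induction h with
  | rel a b h =>
    obtain ⟨h1, h2⟩ := move_inv h s
    exact ⟨h1, fun h3 => h2 (h1.1 h3)⟩
  | refl a => exact ⟨Iff.rfl, fun _ => rfl⟩
  | symm a b _ ih => exact ⟨ih.1.symm, fun h => (ih.2 (ih.1.2 h)).symm⟩
  | trans a b c _ _ ih ih' => exact ⟨ih.1.trans ih'.1, fun h => (ih.2 h).trans (ih'.2 (ih.1.1 h))⟩

theorem f_trivial (κ s : Bool) : (knotoid κ s []).fPoly = 1 := by
  rw [fPoly_eq]
  have h1 : wr ![true, s, false] [] = 0 := rfl
  rw [h1, braid_nil, LamA, map_one, sgn, if_pos (by simp)]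
  cases κ <;> simp [cs]

/-! ### The fraction is invariant -/

/-- equal up to a common sign -/
def Pm (x y : ℤ × ℤ) : Prop := x = y ∨ x = (-y.1, -y.2)

theorem Z_lw (b : Bool) (i : Fin 2) : (Z (lw b i)).val =
    if i = 0 then !![1, 0; (if b then 1 else -1), 1] else !![1, (if b then -1 else 1); 0, 1] := by
  cases b <;> fin_cases i
  · show (Z (σ 0)⁻¹).val = _
    rw [map_inv, Z, mkHom_σ]; rfl
  · exact Z_1i
  · exact Z_0
  · exact Z_1

/-- one entry vanishes -/
def Null (x : ℤ × ℤ) : Prop := x.1 * x.2 = 0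

theorem fr_first (g : B3) (b : Bool) : fr false (g * lw b 0) = fr false g := by
  simp [fr, Z_lw, Matrix.mul_apply, Fin.sum_univ_two]

theorem fr_first' (g : B3) (b : Bool) : fr true (g * lw b 1) = fr true g := by
  simp [fr, Z_lw, Matrix.mul_apply, Fin.sum_univ_two]

theorem fr_second (g : B3) (b : Bool) : fr false (g * (lw b 0 * lw b 1)) =
    if b then (-(fr true g).1, -(fr true g).2) else fr true g := by
  cases b <;> simp [fr, Z_lw, Matrix.mul_apply, Fin.sum_univ_two, Matrix.vecMul, dotProduct]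

theorem fr_second' (g : B3) (b : Bool) : fr true (g * (lw b 1 * lw b 0)) =
    if b then fr false g else (-(fr false g).1, -(fr false g).2) := by
  cases b <;> simp [fr, Z_lw, Matrix.mul_apply, Fin.sum_univ_two, Matrix.vecMul, dotProduct]

end Pool.Agent.K6.H14.KA
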