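import Pool.Agent.K6.H14.KB.Link
import Pool.Agent.K6.H14.KW.Wr
import Pool.Agent.K6.H14.KA.Alg

/-!
# The bracket of the diagonal closures and its invariance
-/

set_option autoImplicit false

namespace Pool.Agent.K6.H14.KA

open Finset LaurentPolynomial Pool.Agent.H891R2.Jones Pool.Agent.W639.RB Pool.Agent.K6.H34.S3
  Pool.Agent.H832R3.TW Pool.Agent.H297.FT Pool.Agent.K6.H14.KB Pool.Agent.K6.H14.KW

variable {N : ℕ}

theorem sum_diag (N : ℕ) (D : ∀ x y : Fin N, Decidable (x = y)) :
    (∑ x : Fin N, ∑ y : Fin N, @ite ℂ (x = y) (D x y) 1 0) = N := by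
  rw [Finset.sum_congr rfl (fun x _ => Finset.sum_eq_single x
    (by intro b _ hb; rw [if_neg hb.symm]) (by simp))]
  simp

theorem sum_diag' (N : ℕ) (D : ∀ x y : Fin N, Decidable (y = x)) :
    (∑ x : Fin N, ∑ y : Fin N, @ite ℂ (y = x) (D x y) 1 0) = N := by
  rw [Finset.sum_congr rfl (fun x _ => Finset.sum_eq_single x
    (by intro b _ hb; rw [if_neg hb]) (by simp))]
  simp

theorem F_one (κ s : Bool) : Fun (diag κ s).lower (diag κ s).upper N 1 = (N : ℂ) := by
  cases κ
  · simp only [Fun, diag, Module.End.one_apply, ind_three]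
    simp
    try first | exact sum_diag N _ | exact sum_diag' N _
  · simp only [Fun, diag, Module.End.one_apply, ind_three]
    simp
    try first | exact sum_diag N _ | exact sum_diag' N _

theorem F_E0 (κ s : Bool) : Fun (diag κ s).lower (diag κ s).upper N (E N 0) =
    if κ then (N : ℂ) else (N : ℂ) ^ 2 := by
  cases κ
  · simp only [Fun, diag, E0_apply, Finset.sum_apply, ite_apply, ind_three, Pi.zero_apply]
    simp
    try ring
  · simp only [Fun, diag, E0_apply, Finset.sum_apply, ite_apply, ind_three, Pi.zero_apply]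
    simp
    try first | exact sum_diag N _ | exact sum_diag' N _

theorem F_E1 (κ s : Bool) : Fun (diag κ s).lower (diag κ s).upper N (E N 1) =
    if κ then (N : ℂ) ^ 2 else (N : ℂ) := by
  cases κ
  · simp only [Fun, diag, E1_apply, Finset.sum_apply, ite_apply, ind_three, Pi.zero_apply]
    simp
    try first | exact sum_diag N _ | exact sum_diag' N _
  · simp only [Fun, diag, E1_apply, Finset.sum_apply, ite_apply, ind_three, Pi.zero_apply]
    simp
    try ring

theorem F_E01 (κ s : Bool) : Fun (diag κ s).lower (diag κ s).upper N (E N 0 * E N 1) =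
    if κ then (N : ℂ) ^ 2 else (N : ℂ) := by
  cases κ
  · simp only [Fun, diag, Module.End.mul_apply, E0_apply, E1_apply, Finset.sum_apply,
      ite_apply, ind_three, Pi.zero_apply]
    simp
    try first | exact sum_diag N _ | exact sum_diag' N _
  · simp only [Fun, diag, Module.End.mul_apply, E0_apply, E1_apply, Finset.sum_apply,
      ite_apply, ind_three, Pi.zero_apply]
    simp
    try ring

theorem F_E10 (κ s : Bool) : Fun (diag κ s).lower (diag κ s).upper N (E N 1 * E N 0) =
    if κ then (N : ℂ) else (N : ℂ) ^ 2 := by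
  cases κ
  · simp only [Fun, diag, Module.End.mul_apply, E0_apply, E1_apply, Finset.sum_apply,
      ite_apply, ind_three, Pi.zero_apply]
    simp
    try ring
  · simp only [Fun, diag, Module.End.mul_apply, E0_apply, E1_apply, Finset.sum_apply,
      ite_apply, ind_three, Pi.zero_apply]
    simp
    try first | exact sum_diag N _ | exact sum_diag' N _

theorem F_form (κ s : Bool) {A : ℂ} (hA : A ≠ 0)
    {X : Module.End ℂ ((Fin 3 → Fin N) → ((Fin 3 → Fin N) → ℂ))}
    {g : B3} (h : Form N X (R (Units.mk0 A hA) g).val ((chi (Units.mk0 A hA) g : ℂˣ) : ℂ)) :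
    Fun (diag κ s).lower (diag κ s).upper N X = N * LamA κ (Units.mk0 A hA) g := by
  rw [LamA, cs]
  generalize (R (Units.mk0 A hA) g).val = M at h ⊢
  generalize ((chi (Units.mk0 A hA) g : ℂˣ) : ℂ) = c at h ⊢
  obtain ⟨b₀, b₁, g, g', rfl, rfl⟩ := h
  rw [Fun_form, F_one, F_E0, F_E1, F_E10, F_E01]
  cases κ
  · simp
    ring
  · simp
    ring

theorem ev_knotoid (κ s : Bool) (M : ℕ) (hM : 3 ≤ M) (w : Word) :
    ev M hM (knotoid κ s w).bracket = LamA κ (Units.mk0 (Ar M) (Ar_ne M hM)) (braid w) := by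
  have : Nonempty (draw (diag κ s) (nat w)).P := ⟨(draw (diag κ s) (nat w)).lower 0⟩
  have h1 := ev_bracket M hM (knotoid κ s w)
  unfold knotoid at h1 ⊢
  rw [Z_close, Zg_draw (nat w) (diag κ s) (nat_mem w)] at h1
  have h2 := F_form κ s (Ar_ne M hM) (Form_word (Ar_ne M hM) (Ar_d M hM) w)
  have h4 := Fun_eq (N := M) (Ar M) (diag κ s).lower (diag κ s).upper (diag κ s).up
    (rho (Ar M) 3 M (nat w))
  have h5 : Zg (Ar M) M (diag κ s) (rho (Ar M) 3 M (nat w) (fun x y => ind (x = y))) =
      Fun (diag κ s).lower (diag κ s).upper M (rho (Ar M) 3 M (nat w)) := h4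
  rw [← h5, ← h1] at h2
  have h3 : (M : ℂ) ≠ 0 := by
    have : M ≠ 0 := by omega
    exact_mod_cast this
  apply mul_left_cancel₀ h3
  rw [← h2]

theorem bracket_eq (κ s : Bool) (w : Word) : (knotoid κ s w).bracket = LamA κ uT (braid w) := by
  have h : (knotoid κ s w).bracket - LamA κ uT (braid w) + 1 = 1 := by
    apply eq_one_of_ev
    intro M hM
    have h1 := ev_knotoid κ s M hM w
    have e1 : ∀ x, ev M hM x = evU (Units.mk0 (Ar M) (Ar_ne M hM)) x := fun _ => rfl
    rw [map_add, map_sub, map_one, e1 (LamA κ uT _), evU_LamA, h1]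
    ring
  linear_combination h

theorem writhe_eq (κ s : Bool) (w : Word) : (knotoid κ s w).writhe = wr ![true, s, false] w := by
  unfold knotoid
  rw [close_writhe, (draw_dir w (diag κ s)).2]
  simp [owr, diag]

theorem fPoly_eq (κ s : Bool) (w : Word) : (knotoid κ s w).fPoly =
    sgn (wr ![true, s, false] w) * T (-3 * wr ![true, s, false] w) * LamA κ uT (braid w) := by
  unfold Diagram.fPoly
  rw [writhe_eq, bracket_eq]
  rfl

/-- the directions which fit at the upper side -/
def Fits (κ s : Bool) (v : Fin 3 → Bool) : Prop :=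
  if κ then (v 1 ≠ v 2 ∧ v 0 = s) else (v 0 ≠ v 1 ∧ v 2 = s)

instance (κ s : Bool) (v : Fin 3 → Bool) : Decidable (Fits κ s v) := by
  unfold Fits; infer_instance

theorem kgood_diag (κ s : Bool) (v : Fin 3 → Bool) : KGood (diag κ s) v ↔ Fits κ s v := by
  have key : ∀ (κ s : Bool) (v : Fin 3 → Bool), (∃ tail head : Fin 4, tail ≠ head ∧
      (∀ x : Fin 4, Sst (diag κ s) v x = if x = head then 0 else 1) ∧
      (∀ x : Fin 4, Sst (diag κ s).rev (fun j => !(v j)) x = if x = tail then 0 else 1)) ↔
      Fits κ s v := by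
    decide
  exact key κ s v

theorem isKnotoid_iff' (κ s : Bool) (w : Word) : IsKnotoid (knotoid κ s w) ↔
    Fits κ s (act ![true, s, false] w) := by
  unfold knotoid
  rw [isKnotoid_iff, kgood_diag]
  rfl

end Pool.Agent.K6.H14.KA
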